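import Pool.Agent.H19.JP.Final

/-!
# MP_41ff88_co : the shortest-vector ratios along the Jacobi–Perron convergents diverge almost
everywhere
-/

set_option autoImplicit false

namespace Pool.Agent.Results.MP_41ff88_co.AlmostEverywhereDivergence

open MeasureTheory Set Filter Topology

/-- the two-dimensional Jacobi–Perron map `(α, β) ↦ ({β/α}, {1/α})` -/
noncomputable def T (x : ℝ × ℝ) : ℝ × ℝ := (Int.fract (x.2 / x.1), Int.fract (1 / x.1))

/-- `a_i = ⌊β_i/α_i⌋`, where `(α_i, β_i) = T^i (α, β)` -/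
noncomputable def a (x : ℝ × ℝ) (i : ℕ) : ℕ := ⌊(T^[i] x).2 / (T^[i] x).1⌋₊

/-- `b_i = ⌊1/α_i⌋` -/
noncomputable def b (x : ℝ × ℝ) (i : ℕ) : ℕ := ⌊1 / (T^[i] x).1⌋₊

/-- The triples `(P_i, P_{i-1}, P_{i-2})`, `P_i = (q_i, p_i, r_i)`, of the Jacobi–Perron algorithm:
`P_0 = (1, 0, 0)`, `P_{-1} = (0, 0, 1)`, `P_{-2} = (0, 1, 0)` and
`P_{i+1} = b_i P_i + a_i P_{i-1} + P_{i-2}`. -/
noncomputable def triple (x : ℝ × ℝ) : ℕ → (ℤ × ℤ × ℤ) × (ℤ × ℤ × ℤ) × (ℤ × ℤ × ℤ)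
  | 0 => ((1, 0, 0), (0, 0, 1), (0, 1, 0))
  | i + 1 => ((b x i : ℤ) • (triple x i).1 + (a x i : ℤ) • (triple x i).2.1 + (triple x i).2.2,
      (triple x i).1, (triple x i).2.1)

/-- the denominator `q_i` of the `i`-th convergent -/
noncomputable def q (x : ℝ × ℝ) (i : ℕ) : ℤ := (triple x i).1.1

/-- the numerator `p_i` -/
noncomputable def p (x : ℝ × ℝ) (i : ℕ) : ℤ := (triple x i).1.2.1

/-- the numerator `r_i` -/
noncomputable def r (x : ℝ × ℝ) (i : ℕ) : ℤ := (triple x i).1.2.2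

/-- the length of a shortest nonzero vector `k (a, b) + l (N, 0) + m (0, N)` of the lattice
generated by `(a, b)`, `(N, 0)`, `(0, N)` -/
noncomputable def shortest (N a b : ℤ) : ℝ :=
  sInf {d : ℝ | ∃ k l m : ℤ, (k * a + l * N ≠ 0 ∨ k * b + m * N ≠ 0) ∧
    d = Real.sqrt (((k * a + l * N : ℤ) : ℝ) ^ 2 + ((k * b + m * N : ℤ) : ℝ) ^ 2)}

/-- `f(N, a, b) = λ(L_{N,a,b}) / √N` -/
noncomputable def f (N a b : ℤ) : ℝ := shortest N a b / Real.sqrt N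

/-- `s_i(α, β) = f(q_i, p_i, r_i)` -/
noncomputable def s (x : ℝ × ℝ) (i : ℕ) : ℝ := f (q x i) (p x i) (r x i)

/-- `α`, `β` are irrational and `1, α, β` are linearly independent over `ℚ` -/
def Admissible (x : ℝ × ℝ) : Prop :=
  Irrational x.1 ∧ Irrational x.2 ∧ LinearIndependent ℚ ![(1 : ℝ), x.1, x.2]

open Pool.Agent.H19.JP

lemma triple_eq (x : ℝ × ℝ) (i : ℕ) : triple x i = convs x i := by
  induction i with
  | zero => rfl
  | succ i ih =>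
    rw [triple, ih]
    rfl

lemma s_eq (x : ℝ × ℝ) (i : ℕ) : s x i = ratio (convs x i).1 := by
  unfold s q p r
  rw [triple_eq]
  rfl

lemma irrational_of {z : ℝ} (h : ∀ k l : ℤ, (k : ℝ) + l * z = 0 → l = 0) : Irrational z := by
  rintro ⟨c, rfl⟩
  have h1 := h (-c.num) c.den (by
    have hd : ((c.den : ℤ) : ℝ) ≠ 0 := by exact_mod_cast c.den_nz
    have : (c : ℝ) = c.num / c.den := by exact_mod_cast (Rat.num_div_den c).symm
    rw [this]
    push_cast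
    field_simp
    ring)
  exact c.den_nz (by exact_mod_cast h1)

lemma admissible_of {x : ℝ × ℝ} (hx : Adm x) : Admissible x := by
  obtain ⟨_, _, _, _, h⟩ := hx
  refine ⟨irrational_of fun k l hkl => (h k l 0 (by push_cast; linarith)).2.1,
    irrational_of fun k l hkl => (h k 0 l (by push_cast; linarith)).2.2, ?_⟩
  rw [← LinearIndependent.iff_fractionRing ℤ ℚ, Fintype.linearIndependent_iff]
  intro g hg
  rw [Fin.sum_univ_three] at hg
  simp only [Matrix.cons_val_zero, Matrix.cons_val_one, zsmul_eq_mul, mul_one,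
    Matrix.cons_val] at hg
  obtain ⟨h0, h1, h2⟩ := h _ _ _ hg
  intro i
  fin_cases i
  · exact h0
  · exact h1
  · exact h2

/-- **Almost everywhere the shortest-vector ratios along the Jacobi–Perron convergents diverge,
with an oscillation which is bounded below by an absolute constant.** -/
theorem result :
    (∃ ε > 0, ∀ᵐ x ∂(volume.restrict (Ioo (0 : ℝ) 1 ×ˢ Ioo (0 : ℝ) 1)), Admissible x ∧
      ∀ m : ℕ, ∃ i ≥ m, ∃ j ≥ m, ε ≤ |s x i - s x j|) ∧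
    volume {x ∈ Ioo (0 : ℝ) 1 ×ˢ Ioo (0 : ℝ) 1 | Admissible x ∧
      ¬ ∃ L : ℝ, Tendsto (s x) atTop (𝓝 L)} = 1 := by
  have h1 : ∀ᵐ x ∂(volume.restrict (Ioo (0 : ℝ) 1 ×ˢ Ioo (0 : ℝ) 1)), Admissible x ∧
      ∀ m : ℕ, ∃ i ≥ m, ∃ j ≥ m, eps0 / 2 ≤ |s x i - s x j| := by
    filter_upwards [ae_osc] with x hx
    refine ⟨admissible_of hx.1, fun m => ?_⟩
    obtain ⟨i, hi, j, hj, h⟩ := hx.2 m
    exact ⟨i, hi, j, hj, by rw [s_eq, s_eq]; exact h⟩
  have hpos : 0 < eps0 / 2 := by unfold eps0; positivity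
  refine ⟨⟨eps0 / 2, hpos, h1⟩, ?_⟩
  have h2 : volume ((Ioo (0 : ℝ) 1 ×ˢ Ioo (0 : ℝ) 1) \ {x ∈ Ioo (0 : ℝ) 1 ×ˢ Ioo (0 : ℝ) 1 |
      Admissible x ∧ ¬ ∃ L : ℝ, Tendsto (s x) atTop (𝓝 L)}) = 0 := by
    rw [ae_restrict_iff' (measurableSet_Ioo.prod measurableSet_Ioo), ae_iff] at h1
    refine measure_mono_null ?_ h1
    rintro x ⟨hx1, hx2⟩ hcon
    apply hx2
    obtain ⟨h3, h4⟩ := hcon hx1
    refine ⟨hx1, h3, ?_⟩
    rintro ⟨L, hL⟩
    rw [Metric.tendsto_atTop] at hL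
    obtain ⟨m, hm⟩ := hL (eps0 / 4) (by linarith)
    obtain ⟨i, hi, j, hj, h5⟩ := h4 m
    have h6 := hm i hi
    have h7 := hm j hj
    rw [Real.dist_eq] at h6 h7
    have h8 : |s x i - s x j| < eps0 / 2 := by
      calc |s x i - s x j| = |(s x i - L) - (s x j - L)| := by ring_nf
        _ ≤ |s x i - L| + |s x j - L| := abs_sub _ _
        _ < eps0 / 4 + eps0 / 4 := add_lt_add h6 h7
        _ = eps0 / 2 := by ring
    linarith
  have h3 : volume (Ioo (0 : ℝ) 1 ×ˢ Ioo (0 : ℝ) 1) = 1 := volume_I2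
  apply le_antisymm
  · rw [← h3]
    exact measure_mono fun x hx => hx.1
  · rw [← h3]
    calc volume (Ioo (0 : ℝ) 1 ×ˢ Ioo (0 : ℝ) 1)
        ≤ volume ({x ∈ Ioo (0 : ℝ) 1 ×ˢ Ioo (0 : ℝ) 1 |
            Admissible x ∧ ¬ ∃ L : ℝ, Tendsto (s x) atTop (𝓝 L)} ∪
          ((Ioo (0 : ℝ) 1 ×ˢ Ioo (0 : ℝ) 1) \ {x ∈ Ioo (0 : ℝ) 1 ×ˢ Ioo (0 : ℝ) 1 |
            Admissible x ∧ ¬ ∃ L : ℝ, Tendsto (s x) atTop (𝓝 L)})) := by
          apply measure_mono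
          intro x hx
          by_cases h : x ∈ {x ∈ Ioo (0 : ℝ) 1 ×ˢ Ioo (0 : ℝ) 1 |
            Admissible x ∧ ¬ ∃ L : ℝ, Tendsto (s x) atTop (𝓝 L)}
          · exact Or.inl h
          · exact Or.inr ⟨hx, h⟩
      _ ≤ _ := measure_union_le _ _
      _ = _ := by rw [h2, add_zero]

end Pool.Agent.Results.MP_41ff88_co.AlmostEverywhereDivergence
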